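import Mathlib

set_option autoImplicit false

/-!
# PP2, piece NUM3 (helper68): the comparison of the bounds (Mathlib only)
-/

namespace Pool.Agent.J4H68.PP

open Finset

theorem choose_le (q n k : ℕ) (hq : 1 ≤ q) (h : k ≤ n) :
    (n.choose k : ℝ) ≤ (((q : ℝ) + 1) / q) ^ n * (q : ℝ) ^ k := by
  have hq0 : (0 : ℝ) < q := by exact_mod_cast hq
  have h1 : (n.choose k : ℝ) * (q : ℝ) ^ (n - k) ≤ ((q : ℝ) + 1) ^ n := by
    rw [add_comm (q : ℝ) 1, add_pow]
    have h2 : (1 : ℝ) ^ k * (q : ℝ) ^ (n - k) * (n.choose k : ℝ) ≤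
        ∑ m ∈ range (n + 1), (1 : ℝ) ^ m * (q : ℝ) ^ (n - m) * (n.choose m : ℝ) := by
      apply single_le_sum (f := fun m => (1 : ℝ) ^ m * (q : ℝ) ^ (n - m) * (n.choose m : ℝ))
      · intro i _
        positivity
      · rw [mem_range]
        omega
    calc (n.choose k : ℝ) * (q : ℝ) ^ (n - k) = (1 : ℝ) ^ k * (q : ℝ) ^ (n - k) * (n.choose k : ℝ) := by ring
      _ ≤ _ := h2
  have h3 : (q : ℝ) ^ n = (q : ℝ) ^ (n - k) * (q : ℝ) ^ k := by
    rw [← pow_add]
    congr 1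
    omega
  have h4 : (((q : ℝ) + 1) / q) ^ n * (q : ℝ) ^ k = ((q : ℝ) + 1) ^ n / (q : ℝ) ^ (n - k) := by
    rw [div_pow, h3]
    field_simp
  rw [h4, le_div_iff₀ (by positivity)]
  exact h1

theorem ind1 (k : ℕ) : ((k : ℝ) + 1) * (5.7 * 20.4 ^ k) ≤ 20 * 40 ^ k := by
  rcases Nat.lt_or_ge k 1 with h | h
  · interval_cases k
    norm_num
  · induction k, h using Nat.le_induction with
    | base => norm_num
    | succ n hn ih =>
      have h1 : (1 : ℝ) ≤ n := by exact_mod_cast hn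
      have h2 : (0 : ℝ) < 20.4 ^ n := by positivity
      push_cast
      rw [pow_succ, pow_succ]
      have h3 : ((n : ℝ) + 1 + 1) * 20.4 ≤ ((n : ℝ) + 1) * 40 := by nlinarith
      calc ((n : ℝ) + 1 + 1) * (5.7 * (20.4 ^ n * 20.4)) = (((n : ℝ) + 1 + 1) * 20.4) * (5.7 * 20.4 ^ n) := by ring
        _ ≤ (((n : ℝ) + 1) * 40) * (5.7 * 20.4 ^ n) := by gcongr
        _ = (((n : ℝ) + 1) * (5.7 * 20.4 ^ n)) * 40 := by ring
        _ ≤ (20 * 40 ^ n) * 40 := by gcongr
        _ = _ := by ring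

theorem ind2 (k : ℕ) : ((k : ℝ) + 1) * (7.4 * 29.92 ^ k) ≤ 20 * 40 ^ k := by
  rcases Nat.lt_or_ge k 2 with h | h
  · interval_cases k <;> norm_num
  · induction k, h using Nat.le_induction with
    | base => norm_num
    | succ n hn ih =>
      have h1 : (2 : ℝ) ≤ n := by exact_mod_cast hn
      have h2 : (0 : ℝ) < 29.92 ^ n := by positivity
      push_cast
      rw [pow_succ, pow_succ]
      have h3 : ((n : ℝ) + 1 + 1) * 29.92 ≤ ((n : ℝ) + 1) * 40 := by nlinarith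
      calc ((n : ℝ) + 1 + 1) * (7.4 * (29.92 ^ n * 29.92)) = (((n : ℝ) + 1 + 1) * 29.92) * (7.4 * 29.92 ^ n) := by ring
        _ ≤ (((n : ℝ) + 1) * 40) * (7.4 * 29.92 ^ n) := by gcongr
        _ = (((n : ℝ) + 1) * (7.4 * 29.92 ^ n)) * 40 := by ring
        _ ≤ (20 * 40 ^ n) * 40 := by gcongr
        _ = _ := by ring

/-- from a bound for `b`, if `β ^ k ≤ (k + 1) a` -/
theorem fin (k a b : ℕ) (β y : ℝ) (hβ : 0 < β) (hb : (b : ℝ) ≤ y * β ^ k / 2 ^ k)
    (ha : β ^ k ≤ ((k : ℝ) + 1) * a) (hy : ((k : ℝ) + 1) * y ≤ 20 * 40 ^ k) (hy0 : 0 ≤ y) : b ≤ 20 ^ (k + 1) * a := by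
  have h1 : (b : ℝ) ≤ 20 ^ (k + 1) * a := by
    have h2 : (b : ℝ) * 2 ^ k ≤ y * β ^ k := by
      rw [le_div_iff₀ (by positivity)] at hb
      exact hb
    have h3 : (b : ℝ) * 2 ^ k ≤ 20 * 40 ^ k * a := by
      calc (b : ℝ) * 2 ^ k ≤ y * β ^ k := h2
        _ ≤ y * (((k : ℝ) + 1) * a) := by gcongr
        _ = (((k : ℝ) + 1) * y) * a := by ring
        _ ≤ 20 * 40 ^ k * a := by gcongr
    have h4 : (20 : ℝ) * 40 ^ k * a = (20 ^ (k + 1) * a) * 2 ^ k := by
      have : (40 : ℝ) ^ k = 20 ^ k * 2 ^ k := by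
        rw [← mul_pow]
        norm_num
      rw [this, pow_succ]
      ring
    rw [h4] at h3
    exact le_of_mul_le_mul_right h3 (by positivity)
  exact_mod_cast h1

theorem num3 : ∀ (r N a b : ℕ) (_ : 1 ≤ r) (_ : 3 * r < N) (_ : 1 ≤ a)
    (_ : b ≤ (N - 1).choose (r - 1))
    (_ : ∀ B : ℕ, 1 ≤ B → r * (3 * B + 2) + 3 * B + 1 ≤ N → B ^ (r - 1) ≤ r * a)
    (_ : 6 * r + 5 ≤ N → 2 ^ (r - 1) ≤ r * a), b ≤ 20 ^ r * a := by
  intro r N a b hr hN ha hb hB h2
  obtain ⟨k, rfl⟩ : ∃ k, r = k + 1 := ⟨r - 1, by omega⟩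
  obtain ⟨n, rfl⟩ : ∃ n, N = n + 1 := ⟨N - 1, by omega⟩
  simp only [Nat.add_sub_cancel] at hb hB h2
  have hkn : k ≤ n := by omega
  have haR : (1 : ℝ) ≤ a := by exact_mod_cast ha
  have hbR : (b : ℝ) ≤ (n.choose k : ℝ) := by exact_mod_cast hb
  rcases Nat.lt_or_ge (n + 1) (6 * (k + 1) + 5) with hc | hc
  · -- few
    have h1 := choose_le 5 n k (by norm_num) hkn
    have h3 : (n.choose k : ℝ) ≤ 6 * 15 ^ k := by
      push_cast at h1
      have h4 : (((5 : ℝ) + 1) / 5) ^ n ≤ (6 / 5) ^ (6 * k + 9) := by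
        rw [show ((5 : ℝ) + 1) / 5 = 6 / 5 by norm_num]
        exact pow_le_pow_right₀ (by norm_num) (by omega)
      have h5 : ((6 : ℝ) / 5) ^ (6 * k + 9) * 5 ^ k ≤ 6 * 15 ^ k := by
        rw [pow_add, pow_mul]
        calc (((6 : ℝ) / 5) ^ 6) ^ k * (6 / 5) ^ 9 * 5 ^ k = ((6 / 5) ^ 6 * 5) ^ k * (6 / 5) ^ 9 := by
              rw [mul_pow]; ring
          _ ≤ 15 ^ k * 6 := by
            gcongr <;> norm_num
          _ = _ := by ring
      calc (n.choose k : ℝ) ≤ (((5 : ℝ) + 1) / 5) ^ n * 5 ^ k := h1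
        _ ≤ (6 / 5) ^ (6 * k + 9) * 5 ^ k := by gcongr
        _ ≤ _ := h5
    have h6 : (b : ℝ) ≤ 20 ^ (k + 1) * a := by
      calc (b : ℝ) ≤ 6 * 15 ^ k := hbR.trans h3
        _ ≤ 20 * 20 ^ k := by gcongr <;> norm_num
        _ = 20 ^ (k + 1) * 1 := by ring
        _ ≤ 20 ^ (k + 1) * a := by gcongr
    exact_mod_cast h6
  · rcases Nat.lt_or_ge (n + 1) (8 * (k + 1) + 7) with hd | hd
    · -- two small letters
      have h1 := choose_le 7 n k (by norm_num) hkn
      have h3 : (n.choose k : ℝ) ≤ 5.7 * 20.4 ^ k := by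
        push_cast at h1
        have h4 : (((7 : ℝ) + 1) / 7) ^ n ≤ (8 / 7) ^ (8 * k + 13) := by
          rw [show ((7 : ℝ) + 1) / 7 = 8 / 7 by norm_num]
          exact pow_le_pow_right₀ (by norm_num) (by omega)
        have h5 : ((8 : ℝ) / 7) ^ (8 * k + 13) * 7 ^ k ≤ 5.7 * 20.4 ^ k := by
          rw [pow_add, pow_mul]
          calc (((8 : ℝ) / 7) ^ 8) ^ k * (8 / 7) ^ 13 * 7 ^ k = ((8 / 7) ^ 8 * 7) ^ k * (8 / 7) ^ 13 := by
                rw [mul_pow]; ring
            _ ≤ 20.4 ^ k * 5.7 := by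
              gcongr <;> norm_num
            _ = _ := by ring
        calc (n.choose k : ℝ) ≤ (((7 : ℝ) + 1) / 7) ^ n * 7 ^ k := h1
          _ ≤ (8 / 7) ^ (8 * k + 13) * 7 ^ k := by gcongr
          _ ≤ _ := h5
      refine fin k a b 2 (5.7 * 20.4 ^ k) (by norm_num) ?_ ?_ (ind1 k) (by positivity)
      · rw [mul_div_assoc, div_self (by positivity), mul_one]
        exact hbR.trans h3
      · exact_mod_cast h2 hc
    · -- many letters
      set q : ℕ := 3 * (k + 2) with hq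
      set B : ℕ := (n - 2 * (k + 1)) / q with hBd
      have hq0 : 0 < q := by omega
      have hB2 : 2 ≤ B := by
        rw [hBd, Nat.le_div_iff_mul_le hq0]
        omega
      have h3 : B * q ≤ n - 2 * (k + 1) := Nat.div_mul_le_self _ _
      have h4 : n - 2 * (k + 1) < q * (B + 1) := by
        rw [hBd]
        exact Nat.lt_mul_div_succ _ hq0
      have h5 : (k + 1) * (3 * B + 2) + 3 * B + 1 ≤ n + 1 := by
        have : (k + 1) * (3 * B + 2) + 3 * B = B * q + 2 * (k + 1) := by rw [hq]; ring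
        omega
      have h6 := hB B (by omega) h5
      have h7 : 2 * n ≤ (11 * k + 20) * B := by
        have e1 : q * (B + 1) = 3 * (k * B) + 6 * B + 3 * k + 6 := by rw [hq]; ring
        have e2 : (11 * k + 20) * B = 11 * (k * B) + 20 * B := by ring
        have e3 : 2 * k ≤ k * B := by
          rw [mul_comm 2 k]
          exact Nat.mul_le_mul_left _ hB2
        omega
      have hBR : (2 : ℝ) ≤ B := by exact_mod_cast hB2
      have h8 : (n : ℝ) ≤ (11 * k + 20) * B / 2 := by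
        have : (2 : ℝ) * n ≤ (11 * k + 20) * B := by exact_mod_cast h7
        linarith
      have h9 : (n.choose k : ℝ) ≤ (7.4 * 29.92 ^ k) * (B : ℝ) ^ k / 2 ^ k := by
        have e1 : (n.choose k : ℝ) ≤ (n : ℝ) ^ k / (k.factorial : ℝ) := Nat.choose_le_pow_div k n
        have e2 : ((k : ℝ) + 20 / 11) ^ k / (k.factorial : ℝ) ≤ Real.exp (k + 20 / 11) :=
          Real.pow_div_factorial_le_exp _ (by positivity) _
        have e3 : Real.exp ((k : ℝ) + 20 / 11) ≤ 2.72 ^ k * 7.4 := by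
          have e4 : Real.exp 1 ≤ 2.72 := by
            have := Real.exp_one_lt_d9
            linarith
          rw [Real.exp_add]
          have e5 : Real.exp (k : ℝ) ≤ 2.72 ^ k := by
            rw [show (k : ℝ) = (k : ℝ) * 1 by ring, Real.exp_nat_mul]
            gcongr
          have e6 : Real.exp (20 / 11) ≤ 7.4 := by
            calc Real.exp (20 / 11) ≤ Real.exp (2 * 1) := Real.exp_le_exp.mpr (by norm_num)
              _ = Real.exp 1 ^ 2 := by
                rw [show (2 * 1 : ℝ) = ((2 : ℕ) : ℝ) * 1 by norm_num, Real.exp_nat_mul]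
              _ ≤ 2.72 ^ 2 := by gcongr
              _ ≤ 7.4 := by norm_num
          gcongr
        have hf : (0 : ℝ) < (k.factorial : ℝ) := by exact_mod_cast Nat.factorial_pos k
        calc (n.choose k : ℝ) ≤ (n : ℝ) ^ k / (k.factorial : ℝ) := e1
          _ ≤ ((11 * k + 20) * B / 2) ^ k / (k.factorial : ℝ) := by gcongr
          _ = (11 ^ k * (B : ℝ) ^ k / 2 ^ k) * (((k : ℝ) + 20 / 11) ^ k / (k.factorial : ℝ)) := by
            have : ((11 : ℝ) * k + 20) * B / 2 = 11 * B / 2 * (k + 20 / 11) := by ring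
            rw [this, mul_pow, div_pow, mul_pow]
            ring
          _ ≤ (11 ^ k * (B : ℝ) ^ k / 2 ^ k) * (2.72 ^ k * 7.4) := by
            gcongr
            exact e2.trans e3
          _ = (7.4 * 29.92 ^ k) * (B : ℝ) ^ k / 2 ^ k := by
            have : (29.92 : ℝ) ^ k = 11 ^ k * 2.72 ^ k := by
              rw [← mul_pow]
              norm_num
            rw [this]
            ring
      refine fin k a b B (7.4 * 29.92 ^ k) (by linarith) (hbR.trans h9) ?_ (ind2 k) (by positivity)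
      exact_mod_cast h6

end Pool.Agent.J4H68.PP
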